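import Pool.Agent.Unbent.Main

/-!
Unbent collections of orthogonal drawings: minimum size and minimum total bend number cannot
always be attained together. There is a plane 4-graph (eleven vertices, nineteen edges) whose
unbent collections of minimum size (two drawings) have at least 36 bends in total, while three
drawings with 33 bends in total suffice, and no unbent collection has fewer bends.

The lower bounds use the rotation theorem for simple closed rectilinear curves, which is
proved in full in the helper files, and a branching certificate that is checked by the kernel.
-/

namespace Pool.Agent.Results.MP_e123e2_co.SizeVersusBends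

open Unbent

theorem result : ∃ G : PlaneFourGraph 11,
    (∀ C : Finset (OrthoDrawing G), IsUnbent C → C.card = un G → tbn G < totalBends C) ∧
    un G = 2 ∧ tbn G = 33 ∧
    (∀ C : Finset (OrthoDrawing G), IsUnbent C → C.card = 2 → 36 ≤ totalBends C) ∧
    ∃ C : Finset (OrthoDrawing G), IsUnbent C ∧ C.card = 2 ∧ totalBends C = 36 := by
  refine ⟨G0, fun C h1 h2 => ?_, un_eq, tbn_eq, fun C h1 h2 => two_total h1 h2, two_exists⟩
  rw [un_eq] at h2
  rw [tbn_eq]
  have := two_total h1 h2
  omega

end Pool.Agent.Results.MP_e123e2_co.SizeVersusBends
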